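import Pool.Agent.H330ST.Main

set_option autoImplicit false

/-!
# Exact uniform sampling of simplicial spanning trees in expected polynomial time

There is one probabilistic Turing machine `M` (with finitely many stacks; `Turing.TM2` of Mathlib,
with one more stack that contains the fair coin flips) and one polynomial `p`, such that, for every
finite simplicial complex `F` of any dimension `d ≥ 1`, given as a list `l` of all its faces in any
order, `M` almost surely halts and outputs a spanning tree (the sublist of its faces), every
spanning tree has exactly the same probability, and the expected number of steps of `M` is at
most `p (number of faces)`.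

The algorithm works in rounds. In a round it makes a polynomial number of steps of the lazy basis
exchange walk from a fixed spanning tree. With probability `2 ^ (-m)` (where `m` is a constant
multiple of the number `n` of faces), it does a correction instead: it finds, by dynamic
programming over all `2 ^ k` sets of top-dimensional faces, for every spanning tree the exact number
of strings of coins that lead the walk to it, and outputs a tree with probability proportional to
the difference to the largest of these numbers. After this all trees are equally likely in a round.
The correction has exponential cost, but its share in the expected time is polynomial.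
-/

noncomputable section

namespace Pool.Agent.Results.MP_d8fb5e_lc.ExactSampler

open Pool.Agent.H330ST MeasureTheory
open scoped ENNReal

theorem result :
    ∃ (M : CoinTM) (p : Polynomial ℕ),
      ∀ (F : Finset (Finset ℕ)) (d : ℕ) (l : List (List ℕ)),
        IsComplex F → 1 ≤ d → HasDim F d → Lists l F →
        ∃ (time : (ℕ → Bool) → ℕ) (tree : (ℕ → Bool) → Finset (Finset ℕ)),
          Measurable time ∧ (∀ T, MeasurableSet {ω | tree ω = T}) ∧
          (∀ᵐ ω ∂coinMeasure, IsSpanningTree F d (tree ω) ∧ M.Halts (encFaces l) ω (time ω)
            (encFaces (l.filter (fun f => decide (f.toFinset ∈ tree ω))))) ∧
          (∀ T, IsSpanningTree F d T →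
            coinMeasure {ω | tree ω = T} = 1 / (Set.ncard {T | IsSpanningTree F d T} : ℝ≥0∞)) ∧
          ∫⁻ ω, (time ω : ℝ≥0∞) ∂coinMeasure ≤ ((p.eval F.card : ℕ) : ℝ≥0∞) :=
  Pool.Agent.H330ST.Main.main

end Pool.Agent.Results.MP_d8fb5e_lc.ExactSampler
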